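import Pool.Agent.Q230.IP.St

/-!
# Project IP, job FIN: finitely many solutions of the systems
-/

set_option autoImplicit false

namespace Pool.Agent.Q251.IP

open Pool.Agent.Q230.IP

theorem bev_eq {P : Type} [Fintype P] [DecidableEq P] {D : ℕ} (q : (P → Fin D) → ℤ) (z : P → ℝ) :
    bev q z = ∑ a : P → Fin D, (q a : ℝ) * ∏ i, z i ^ (a i : ℕ) := by
  unfold bev
  refine Finset.sum_congr ?_ fun _ _ => rfl
  ext x
  simp

theorem bev_option {P : Type} [Fintype P] {D : ℕ} (q : (Option P → Fin D) → ℤ) (y : ℝ) (p : P → ℝ) :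
    bev q (fun o => o.elim y p) =
      ∑ i : Fin D, bev (fun a : P → Fin D => q (fun o => o.elim i a)) p * y ^ (i : ℕ) := by
  let _ := Classical.decEq P
  have h1 : bev q (fun o => o.elim y p) = ∑ x : Fin D × (P → Fin D),
      ((q (fun o => o.elim x.1 x.2) : ℤ) : ℝ) * (y ^ (x.1 : ℕ) * ∏ i, p i ^ (x.2 i : ℕ)) := by
    rw [bev_eq]
    refine Fintype.sum_equiv (Equiv.piOptionEquivProd (β := fun _ => Fin D)) _ _ fun a => ?_
    have e1 : (fun o : Option P => o.elim (Equiv.piOptionEquivProd (β := fun _ => Fin D) a).1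
        (Equiv.piOptionEquivProd (β := fun _ => Fin D) a).2) = a := by
      funext o
      cases o <;> rfl
    rw [e1, Fintype.prod_option]
    rfl
  rw [h1, Fintype.sum_prod_type]
  refine Finset.sum_congr rfl fun i _ => ?_
  rw [bev_eq, Finset.sum_mul]
  refine Finset.sum_congr rfl fun a _ => ?_
  ring

theorem exists_slice {P : Type} {D : ℕ} {q : (Option P → Fin D) → ℤ} (hq : q ≠ 0) :
    ∃ i : Fin D, (fun a : P → Fin D => q (fun o => o.elim i a)) ≠ 0 := by
  by_contra hn
  push Not at hn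
  apply hq
  funext b
  have h1 := congrFun (hn (b none)) (fun j => b (some j))
  have h2 : (fun o : Option P => o.elim (b none) (fun j => b (some j))) = b := by
    funext o
    cases o <;> rfl
  simp only [h2] at h1
  exact h1

/-- The roots of a nonzero coefficient family are finitely many. -/
theorem fin_roots {D : ℕ} {c : Fin D → ℝ} (hc : ∃ i, c i ≠ 0) : {y : ℝ | ∑ i, c i * y ^ (i : ℕ) = 0}.Finite := by
  obtain ⟨i, hi⟩ := hc
  set f : Polynomial ℝ := ∑ j : Fin D, Polynomial.C (c j) * Polynomial.X ^ (j : ℕ) with hf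
  have hcoef : f.coeff (i : ℕ) = c i := by
    rw [hf, Polynomial.finsetSum_coeff]
    rw [Finset.sum_eq_single i]
    · rw [Polynomial.coeff_C_mul, Polynomial.coeff_X_pow, if_pos rfl, mul_one]
    · intro j _ hj
      rw [Polynomial.coeff_C_mul, Polynomial.coeff_X_pow, if_neg, mul_zero]
      intro h
      exact hj (Fin.ext h.symm)
    · intro h
      exact absurd (Finset.mem_univ _) h
  have hf0 : f ≠ 0 := by
    intro h
    rw [h, Polynomial.coeff_zero] at hcoef
    exact hi hcoef.symm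
  refine (f.roots.toFinset.finite_toSet).subset ?_
  intro y hy
  have hy' : ∑ i, c i * y ^ (i : ℕ) = 0 := hy
  rw [Finset.mem_coe, Multiset.mem_toFinset, Polynomial.mem_roots hf0, Polynomial.IsRoot.def, hf, Polynomial.eval_finsetSum]
  rw [← hy']
  refine Finset.sum_congr rfl fun j _ => ?_
  simp

theorem fin (h1 : S_rel) (h2 : S_hier) (h3 : S_pos) : S_fin := by
  intro n A C D K e hn hC hdeg hnrm hD he s hs r hr t
  obtain ⟨p1, p2, p3⟩ := h3 n (TT n)
  obtain ⟨s1, s2, s3⟩ := hs
  have hD1 : 1 ≤ D := by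
    refine le_trans ?_ hD
    unfold DB
    have : 0 < 2 * ((LL n (TT n) + 1) * ((n + 2) ^ 2 * (2 * n + 9) + 1) + 1) ^ LL n (TT n) := by positivity
    omega
  have hbound : (D : ℝ) ^ Fintype.card (Par n (TT n)) * (HB n (TT n) C D : ℕ) < s 0 := by
    refine lt_of_le_of_lt ?_ s2
    rw [p3]
    have h4 : D ^ LL n (TT n) * HB n (TT n) C D ≤ AB n C D K := by
      unfold AB
      have h5 : D ^ LL n (TT n) ≤ D ^ (LL n (TT n) + 1) := Nat.pow_le_pow_right hD1 (by omega)
      have h6 : 1 ≤ (2 * K + 2) ^ D := Nat.one_le_pow _ _ (by omega)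
      calc D ^ LL n (TT n) * HB n (TT n) C D ≤ D ^ (LL n (TT n) + 1) * HB n (TT n) C D := Nat.mul_le_mul_right _ h5
        _ = D ^ (LL n (TT n) + 1) * HB n (TT n) C D * 1 := by ring
        _ ≤ D ^ (LL n (TT n) + 1) * HB n (TT n) C D * (2 * K + 2) ^ D := Nat.mul_le_mul_left _ h6
        _ ≤ D ^ (LL n (TT n) + 1) * HB n (TT n) C D * (2 * K + 2) ^ D + 1 := Nat.le_succ _
    exact_mod_cast h4
  have hfin : ∀ τ : YI n r, ∃ S : Set ℝ, S.Finite ∧ ∀ x v lam V, Kkt (T := TT n) A (pv s) r t x v lam V →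
      yv x v lam V τ ∈ S := by
    intro τ
    obtain ⟨q, q1, q2, q3⟩ := h1 n (TT n) A C D hn hC hdeg hnrm hD r hr t τ
    obtain ⟨i, hi⟩ := exists_slice q1
    have h5 := h2 (Par n (TT n)) D (HB n (TT n) C D) e (fun a => q (fun o => o.elim i a)) (pos n (TT n)) s
      (fun j => j = Sum.inl 1) hi (fun a => q2 _) p1 (by rw [p3]; exact he) s1 hbound s3
    refine ⟨{y : ℝ | ∑ i : Fin D, bev (fun a : Par n (TT n) → Fin D => q (fun o => o.elim i a)) (pv s) * y ^ (i : ℕ) = 0},
      fin_roots ⟨i, ?_⟩, ?_⟩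
    · exact h5
    · intro x v lam V hK
      have h6 := q3 (pv s) x v lam V hK
      rw [bev_option] at h6
      exact h6
  choose S hS1 hS2 using hfin
  have hpi : (Set.univ.pi S).Finite := Set.Finite.pi hS1
  refine Set.Finite.of_finite_image (f := fun y : (Fin n → ℝ) × ((Fin (r + 1) → Fin n → ℝ) × ((Fin (r + 1) → ℝ) × ℝ)) =>
    yv y.1 y.2.1 y.2.2.1 y.2.2.2) (hpi.subset ?_) ?_
  · rintro z ⟨y, hy, rfl⟩
    intro τ _
    exact hS2 τ _ _ _ _ hy
  · rintro ⟨x, v, lam, V⟩ hy ⟨x', v', lam', V'⟩ hy' heq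
    simp only at heq
    have ex : x = x' := by
      funext l
      exact congrFun heq (Sum.inl l)
    have ev : v = v' := by
      funext i l
      exact congrFun heq (Sum.inr (Sum.inl (i, l)))
    have el : ∀ i : Fin r, lam i.succ = lam' i.succ := fun i => congrFun heq (Sum.inr (Sum.inr (Sum.inl i)))
    have eV : V = V' := congrFun heq (Sum.inr (Sum.inr (Sum.inr ())))
    have hs1 : ∑ i, lam i = 1 := hy.sum
    have hs2 : ∑ i, lam' i = 1 := hy'.sum
    rw [Fin.sum_univ_succ] at hs1 hs2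
    have e0 : lam 0 = lam' 0 := by
      have : ∑ i : Fin r, lam i.succ = ∑ i : Fin r, lam' i.succ := Finset.sum_congr rfl fun i _ => el i
      linarith
    have elam : lam = lam' := by
      funext i
      refine Fin.cases ?_ ?_ i
      · exact e0
      · exact el
    rw [ex, ev, elam, eV]

end Pool.Agent.Q251.IP
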